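import Pool.Agent.H752.KM.Stubs

/-! Task K1 (helper57): a Lebesgue null set of oracles is null for every gauge which is infinitely
often bounded. -/

namespace Pool.Agent.H752.KM

open Pool.Agent.NPC Pool.Agent.H620R2.Gauge MeasureTheory Finset

/-- the first `N` bits of the oracle `A` -/
def K1.pr (A : Oracle) (N : ℕ) : List Bool := (List.range N).map (fun i => A (str i))

theorem K1.length_pr (A : Oracle) (N : ℕ) : (K1.pr A N).length = N := by
  simp [K1.pr]

theorem K1.getElem_pr (A : Oracle) (N i : ℕ) (h : i < (K1.pr A N).length) :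
    (K1.pr A N)[i] = A (str i) := by
  simp [K1.pr]

theorem K1.extends_pr (A : Oracle) (N : ℕ) : Extends A (K1.pr A N) := by
  intro i h
  rw [K1.getElem_pr]

theorem K1.eq_pr {A : Oracle} {σ : List Bool} (h : Extends A σ) : σ = K1.pr A σ.length := by
  apply List.ext_getElem
  · rw [K1.length_pr]
  · intro i h1 h2
    rw [K1.getElem_pr, h i h1]

theorem K1.take_pr (A : Oracle) {m N : ℕ} (h : m ≤ N) : (K1.pr A N).take m = K1.pr A m := by
  apply List.ext_getElem
  · rw [List.length_take, K1.length_pr, K1.length_pr]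
    omega
  · intro i h1 h2
    rw [List.getElem_take, K1.getElem_pr, K1.getElem_pr]

theorem K1.cyl_eq (σ : List Bool) : {A : Oracle | Extends A σ} =
    Set.pi (((Finset.range σ.length).image str : Finset (List Bool)) : Set (List Bool))
      (fun y => ({σ.getD (idx y) false} : Set Bool)) := by
  ext A
  simp only [Set.mem_ofPred_eq, Set.mem_pi, Finset.coe_image, Set.mem_image,
    Finset.mem_coe, Finset.mem_range, forall_exists_index, and_imp, Set.mem_singleton_iff]
  constructor
  · rintro h y i hi rfl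
    rw [idx_str, List.getD_eq_getElem _ _ hi]
    exact h i hi
  · intro h i hi
    have := h (str i) i hi rfl
    rw [idx_str, List.getD_eq_getElem _ _ hi] at this
    exact this

theorem K1.measurableSet_cyl (σ : List Bool) : MeasurableSet {A : Oracle | Extends A σ} := by
  rw [K1.cyl_eq]
  exact MeasurableSet.pi (Finset.countable_toSet _) (fun i _ => MeasurableSet.singleton _)

theorem K1.ranO_cyl (σ : List Bool) : ranO {A : Oracle | Extends A σ} =
    (2⁻¹ : ENNReal) ^ σ.length := by
  rw [K1.cyl_eq]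
  have h2 : ranO (Set.pi (((Finset.range σ.length).image str : Finset (List Bool)) :
      Set (List Bool)) (fun y => ({σ.getD (idx y) false} : Set Bool))) =
      ∏ y ∈ (Finset.range σ.length).image str, coinM ({σ.getD (idx y) false} : Set Bool) :=
    Measure.infinitePi_pi (fun _ : List Bool => coinM)
      (fun i _ => MeasurableSet.singleton _)
  rw [h2, Finset.prod_congr rfl (fun y _ => coinM_singleton _), Finset.prod_const,
    Finset.card_image_of_injective _ str_injective, Finset.card_range]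

theorem K1.ofReal_pow (N : ℕ) (x C : ℝ) (h : x ≤ C) :
    ENNReal.ofReal (2 ^ (x - (N : ℝ))) ≤ ENNReal.ofReal (2 ^ C) * (2⁻¹ : ENNReal) ^ N := by
  have h1 : (2⁻¹ : ENNReal) ^ N = ENNReal.ofReal ((2 : ℝ) ^ (-(N : ℝ))) := by
    rw [Real.rpow_neg (by norm_num), Real.rpow_natCast,
      ENNReal.ofReal_inv_of_pos (by positivity), ENNReal.ofReal_pow (by norm_num),
      ENNReal.inv_pow]
    simp
  rw [h1, ← ENNReal.ofReal_mul (by positivity), ← Real.rpow_add (by norm_num)]
  apply ENNReal.ofReal_le_ofReal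
  apply Real.rpow_le_rpow_of_exponent_le (by norm_num)
  linarith

theorem K1.exists_cyl {U : Set Oracle} (hU : IsOpen U) {A : Oracle} (hA : A ∈ U) :
    ∃ N0, ∀ N ≥ N0, {B : Oracle | Extends B (K1.pr A N)} ⊆ U := by
  classical
  obtain ⟨I, u, h1, h2⟩ := isOpen_pi_iff.1 hU A hA
  refine ⟨I.sup (fun y => idx y + 1), fun N hN B hB => h2 ?_⟩
  rw [Set.mem_pi]
  intro y hy
  have hy' : y ∈ I := hy
  have h3 : idx y + 1 ≤ I.sup (fun y => idx y + 1) :=
    Finset.le_sup (f := fun y => idx y + 1) hy'
  have h4 : idx y < (K1.pr A N).length := by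
    rw [K1.length_pr]
    omega
  have h5 := hB (idx y) h4
  rw [K1.getElem_pr, str_idx] at h5
  rw [h5]
  exact (h1 y hy').2

theorem K1.exists_open (X : Set Oracle) (hX : ranO X = 0) (ε : ENNReal) (hε : 0 < ε) :
    ∃ U : Set Oracle, X ⊆ U ∧ IsOpen U ∧ ranO U < ε := by
  have : BorelSpace Oracle := Pi.borelSpace
  have hreg : ranO.OuterRegular := inferInstance
  obtain ⟨U, h1, h2, h3⟩ := X.exists_isOpen_lt_of_lt (μ := ranO) ε (by rw [hX]; exact hε)
  exact ⟨U, h1, h2, h3⟩

theorem t_null : St_null := by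
  intro f X ⟨C, hC⟩ hX δ hδ
  classical
  have hε : 0 < ENNReal.ofReal (2 ^ (-C) * δ) := by
    rw [ENNReal.ofReal_pos]
    positivity
  obtain ⟨U, hXU, hU, hUε⟩ := K1.exists_open X hX _ hε
  set S : Set (List Bool) := {σ | f σ.length ≤ C ∧ {B : Oracle | Extends B σ} ⊆ U ∧
    ∀ m < σ.length, f m ≤ C → ¬ {B : Oracle | Extends B (σ.take m)} ⊆ U} with hS
  refine ⟨S, ?_, ?_⟩
  · intro A hA
    obtain ⟨N0, hN0⟩ := K1.exists_cyl hU (hXU hA)
    have hex : ∃ N, f N ≤ C ∧ {B : Oracle | Extends B (K1.pr A N)} ⊆ U := by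
      obtain ⟨N, hN, hfN⟩ := (Filter.frequently_atTop.1 hC) N0
      exact ⟨N, hfN, hN0 N hN⟩
    refine ⟨K1.pr A (Nat.find hex), ⟨?_, (Nat.find_spec hex).2, ?_⟩, K1.extends_pr _ _⟩
    · rw [K1.length_pr]
      exact (Nat.find_spec hex).1
    · intro m hm hfm hsub
      rw [K1.length_pr] at hm
      rw [K1.take_pr A hm.le] at hsub
      exact Nat.find_min hex hm ⟨hfm, hsub⟩
  · have hkey : ∀ σ ∈ S, ∀ τ ∈ S, ∀ A : Oracle, Extends A σ → Extends A τ →
        ¬ σ.length < τ.length := by
      intro σ hσ τ hτ A h1 h2 hlt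
      refine hτ.2.2 σ.length hlt hσ.1 ?_
      have h3 : τ.take σ.length = σ := by
        rw [K1.eq_pr h2, K1.take_pr A hlt.le, ← K1.eq_pr h1]
      rw [h3]
      exact hσ.2.1
    have hdisj : Pairwise (Function.onFun Disjoint
        (fun σ : S => {B : Oracle | Extends B σ.1})) := by
      intro σ τ hne
      rw [Function.onFun, Set.disjoint_left]
      intro A h1 h2
      have h1' : Extends A σ.1 := h1
      have h2' : Extends A τ.1 := h2
      have h3 := hkey σ.1 σ.2 τ.1 τ.2 A h1' h2'
      have h4 := hkey τ.1 τ.2 σ.1 σ.2 A h2' h1'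
      have h5 : σ.1.length = τ.1.length := by omega
      apply hne
      apply Subtype.ext
      rw [K1.eq_pr h1', K1.eq_pr h2', h5]
    calc ∑' σ : S, ENNReal.ofReal (2 ^ (f σ.1.length - σ.1.length))
        ≤ ∑' σ : S, ENNReal.ofReal (2 ^ C) * ranO {B : Oracle | Extends B σ.1} := by
          refine ENNReal.tsum_le_tsum fun σ => ?_
          rw [K1.ranO_cyl]
          exact K1.ofReal_pow _ _ _ σ.2.1
      _ = ENNReal.ofReal (2 ^ C) * ∑' σ : S, ranO {B : Oracle | Extends B σ.1} :=
          ENNReal.tsum_mul_left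
      _ ≤ ENNReal.ofReal (2 ^ C) * ranO U := by
          refine mul_le_mul_right ?_ _
          refine (tsum_meas_le_meas_iUnion_of_disjoint ranO
            (fun σ : S => K1.measurableSet_cyl σ.1) hdisj).trans ?_
          exact measure_mono (Set.iUnion_subset fun σ => σ.2.2.1)
      _ ≤ ENNReal.ofReal (2 ^ C) * ENNReal.ofReal (2 ^ (-C) * δ) :=
          mul_le_mul_right hUε.le _
      _ = ENNReal.ofReal δ := by
          rw [← ENNReal.ofReal_mul (by positivity), ← mul_assoc,
            ← Real.rpow_add (by norm_num), add_neg_cancel, Real.rpow_zero, one_mul]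

end Pool.Agent.H752.KM
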